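import Pool.Agent.R230.LC.L3

open MeasureTheory Set Real intervalIntegral

namespace Pool.Agent.Results.MP_6ebaa4_an.LogConvexity

open Pool.Agent.R230.LC (sn Dd M M_abs convex_one convex_two_sym M0_pos M_zero_pos)

/-- The function `S_{n,c}`. -/
noncomputable def S (n c x : ℝ) : ℝ :=
  if c = 0 then (1 / π) * ∫ φ in (0 : ℝ)..π, Real.exp (-4 * n * x * sin (φ / 2) ^ 2)
  else (1 / π) * ∫ φ in (0 : ℝ)..π,
    (1 + 4 * c * (x * (1 + c * x)) * sin (φ / 2) ^ 2) ^ (-n / c)

/-- Admissible parameters. -/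
def Admissible (n c : ℝ) : Prop := 0 < n ∧ (c < 0 → ∃ N : ℕ, 0 < N ∧ -n / c = N)

/-- The interval `I_c`. -/
def I (c : ℝ) : Set ℝ := if 0 ≤ c then Ici 0 else Icc 0 (-1 / c)

/-! ### `c ≠ 0` -/

lemma S_eq {n c : ℝ} (hc : c ≠ 0) (x : ℝ) : S n c x = (1 / π) * M 0 (-n / c) (1 + 2 * c * x) := by
  unfold S M Dd sn
  rw [if_neg hc]
  congr 1
  apply intervalIntegral.integral_congr
  intro φ _
  simp only [pow_zero, one_mul]
  congr 1
  ring

lemma logS_eq {n c x : ℝ} (hc : c ≠ 0) (h : 0 < M 0 (-n / c) (1 + 2 * c * x)) :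
    log (S n c x) = log (M 0 (-n / c) (1 + 2 * c * x)) + log (1 / π) := by
  rw [S_eq hc, log_mul (by positivity) h.ne', add_comm]

lemma case_pos {n c : ℝ} (hn : 0 < n) (hc : 0 < c) :
    ConvexOn ℝ (Ici 0) (fun x => log (S n c x)) := by
  have hr : -n / c ≤ 0 := div_nonpos_of_nonpos_of_nonneg (by linarith) hc.le
  have h1 := convex_one hr
  set A : ℝ →ᵃ[ℝ] ℝ := (2 * c) • AffineMap.id ℝ ℝ + AffineMap.const ℝ ℝ (1 : ℝ) with hA
  have hAx : ∀ x, A x = 1 + 2 * c * x := by
    intro x
    simp [hA]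
    ring
  have h2 := (h1.comp_affineMap A).subset (s := Ici 0) ?_ (convex_Ici 0)
  · have h3 := h2.add_const (log (1 / π))
    refine h3.congr ?_
    intro x hx
    have hx0 : (0 : ℝ) ≤ x := hx
    simp only [Function.comp, Pi.add_apply, hAx]
    rw [logS_eq hc.ne' (M0_pos (by positivity) _)]
  · intro x hx
    have hx0 : (0 : ℝ) ≤ x := hx
    show A x ∈ Ici 1
    rw [hAx]
    show 1 ≤ 1 + 2 * c * x
    have : 0 ≤ 2 * c * x := by positivity
    linarith

lemma case_neg {n c : ℝ} (hc : c < 0) (hN : ∃ N : ℕ, 0 < N ∧ -n / c = N) :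
    ConvexOn ℝ (Icc 0 (-1 / c)) (fun x => log (S n c x)) := by
  obtain ⟨N, hN0, hN⟩ := hN
  have hr : 1 ≤ -n / c := by
    rw [hN]
    exact_mod_cast hN0
  have h1 := convex_two_sym hr
  set A : ℝ →ᵃ[ℝ] ℝ := (2 * c) • AffineMap.id ℝ ℝ + AffineMap.const ℝ ℝ (1 : ℝ) with hA
  have hAx : ∀ x, A x = 1 + 2 * c * x := by
    intro x
    simp [hA]
    ring
  have hpos : ∀ y : ℝ, 0 < M 0 (-n / c) y := by
    intro y
    rw [← M_abs]
    rcases (abs_nonneg y).lt_or_eq with h | h
    · exact M0_pos h _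
    · rw [← h]
      exact M_zero_pos (by linarith)
  have h2 := (h1.comp_affineMap A).subset (s := Icc 0 (-1 / c)) ?_ (convex_Icc _ _)
  · have h3 := h2.add_const (log (1 / π))
    refine h3.congr ?_
    intro x _
    simp only [Function.comp, Pi.add_apply, hAx]
    rw [logS_eq hc.ne (hpos _)]
  · intro x hx
    show A x ∈ Icc (-1) 1
    rw [hAx]
    have h3 : -1 ≤ c * x := by
      have := mul_le_mul_of_nonpos_left hx.2 hc.le
      have h4 : c * (-1 / c) = -1 := by field_simp [hc.ne]
      linarith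
    have h5 : c * x ≤ 0 := mul_nonpos_of_nonpos_of_nonneg hc.le hx.1
    constructor <;> linarith

/-! ### `c = 0` -/

/-- `∫₀^π s^j e^{-4nxs} dφ` -/
noncomputable def K (n : ℝ) (j : ℕ) (x : ℝ) : ℝ :=
  ∫ φ in (0 : ℝ)..π, sn φ ^ j * Real.exp (-4 * n * x * sn φ)

lemma cont_K (n x : ℝ) (j : ℕ) : Continuous fun φ => sn φ ^ j * Real.exp (-4 * n * x * sn φ) :=
  (Pool.Agent.R230.LC.cont_sn.pow j).mul
    (Real.continuous_exp.comp (continuous_const.mul Pool.Agent.R230.LC.cont_sn))

lemma hasDerivAt_K (n x : ℝ) (j : ℕ) :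
    HasDerivAt (K n j) (-4 * n * K n (j + 1) x) x := by
  set Q : Set (ℝ × ℝ) := Icc (x - 1) (x + 1) ×ˢ Icc 0 π with hQ
  have hQc : IsCompact Q := isCompact_Icc.prod isCompact_Icc
  have c2 : Continuous fun p : ℝ × ℝ => sn p.2 :=
    Pool.Agent.R230.LC.cont_sn.comp continuous_snd
  have hcont : ContinuousOn (fun p : ℝ × ℝ => sn p.2 ^ j * (Real.exp (-4 * n * p.1 * sn p.2) *
      (-4 * n * sn p.2))) Q := by
    apply Continuous.continuousOn
    exact (c2.pow j).mul ((Real.continuous_exp.comp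
      ((continuous_const.mul continuous_fst).mul c2)).mul (continuous_const.mul c2))
  obtain ⟨B, hB⟩ := hQc.exists_bound_of_continuousOn hcont
  have key := intervalIntegral.hasDerivAt_integral_of_dominated_loc_of_deriv_le
    (μ := volume) (a := 0) (b := π) (x₀ := x) (s := Icc (x - 1) (x + 1))
    (F := fun x φ => sn φ ^ j * Real.exp (-4 * n * x * sn φ))
    (F' := fun x φ => sn φ ^ j * (Real.exp (-4 * n * x * sn φ) * (-4 * n * sn φ)))
    (bound := fun _ => B) (Icc_mem_nhds (by linarith) (by linarith)) ?_ ?_ ?_ ?_ ?_ ?_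
  · have h1 : ∫ φ in (0 : ℝ)..π, sn φ ^ j * (Real.exp (-4 * n * x * sn φ) * (-4 * n * sn φ)) =
        -4 * n * K n (j + 1) x := by
      unfold K
      rw [← intervalIntegral.integral_const_mul]
      congr 1
      ext φ
      ring
    rw [← h1]
    exact key.2
  · exact Filter.Eventually.of_forall fun z => (cont_K n z j).aestronglyMeasurable
  · exact (cont_K n x j).intervalIntegrable _ _
  · apply Continuous.aestronglyMeasurable
    exact (Pool.Agent.R230.LC.cont_sn.pow j).mul ((Real.continuous_exp.comp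
      (continuous_const.mul Pool.Agent.R230.LC.cont_sn)).mul
      (continuous_const.mul Pool.Agent.R230.LC.cont_sn))
  · refine Filter.Eventually.of_forall fun φ hφ z hz => ?_
    rw [uIoc_of_le pi_pos.le] at hφ
    exact hB (z, φ) ⟨hz, ⟨hφ.1.le, hφ.2⟩⟩
  · exact intervalIntegrable_const
  · refine Filter.Eventually.of_forall fun φ _ z _ => ?_
    have h1 : HasDerivAt (fun z : ℝ => -4 * n * z * sn φ) (-4 * n * 1 * sn φ) z :=
      ((hasDerivAt_id' z).const_mul (-4 * n)).mul_const (sn φ)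
    have h2 := (h1.exp).const_mul (sn φ ^ j)
    simpa using h2

lemma K_pos (n x : ℝ) : 0 < K n 0 x := by
  unfold K
  apply intervalIntegral.intervalIntegral_pos_of_pos_on
  · exact (cont_K n x 0).intervalIntegrable _ _
  · intro φ _
    rw [pow_zero, one_mul]
    exact Real.exp_pos _
  · exact pi_pos

lemma K_cs (n x : ℝ) : K n 1 x ^ 2 ≤ K n 2 x * K n 0 x := by
  have h0 := K_pos n x
  set a := K n 0 x with ha
  set b := K n 1 x with hb
  have h1 : 0 ≤ ∫ φ in (0 : ℝ)..π, (sn φ * a - b) ^ 2 * Real.exp (-4 * n * x * sn φ) := by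
    apply intervalIntegral.integral_nonneg pi_pos.le
    intro φ _
    positivity
  have h2 : ∫ φ in (0 : ℝ)..π, (sn φ * a - b) ^ 2 * Real.exp (-4 * n * x * sn φ) =
      a ^ 2 * K n 2 x - 2 * a * b * K n 1 x + b ^ 2 * K n 0 x := by
    unfold K
    have e : ∀ φ, (sn φ * a - b) ^ 2 * Real.exp (-4 * n * x * sn φ) =
        a ^ 2 * (sn φ ^ 2 * Real.exp (-4 * n * x * sn φ)) -
        2 * a * b * (sn φ ^ 1 * Real.exp (-4 * n * x * sn φ)) +
        b ^ 2 * (sn φ ^ 0 * Real.exp (-4 * n * x * sn φ)) := by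
      intro φ; ring
    simp_rw [e]
    have i0 := (cont_K n x 0).intervalIntegrable (μ := volume) 0 π
    have i1 := (cont_K n x 1).intervalIntegrable (μ := volume) 0 π
    have i2 := (cont_K n x 2).intervalIntegrable (μ := volume) 0 π
    rw [intervalIntegral.integral_add ((i2.const_mul _).sub (i1.const_mul _)) (i0.const_mul _),
      intervalIntegral.integral_sub (i2.const_mul _) (i1.const_mul _),
      intervalIntegral.integral_const_mul, intervalIntegral.integral_const_mul,
      intervalIntegral.integral_const_mul]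
  rw [h2, ← ha, ← hb] at h1
  have h3 : 0 ≤ a * (a * K n 2 x - b ^ 2) := by nlinarith
  have h4 := nonneg_of_mul_nonneg_right h3 h0
  linarith

lemma case_zero (n : ℝ) : ConvexOn ℝ (Ici 0) (fun x => log (S n 0 x)) := by
  have hS : ∀ x, S n 0 x = (1 / π) * K n 0 x := by
    intro x
    unfold S K sn
    rw [if_pos rfl]
    simp
  have hlog : ∀ x, log (S n 0 x) = log (K n 0 x) + log (1 / π) := by
    intro x
    rw [hS, log_mul (by positivity) (K_pos n x).ne', add_comm]
  have hd : ∀ x, HasDerivAt (fun x => log (K n 0 x)) (-4 * n * K n 1 x / K n 0 x) x := fun x =>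
    (hasDerivAt_K n x 0).log (K_pos n x).ne'
  have h1 : ConvexOn ℝ (Ici 0) (fun x => log (K n 0 x)) := by
    apply MonotoneOn.convexOn_of_deriv (convex_Ici 0)
    · exact fun x _ => (hd x).continuousAt.continuousWithinAt
    · exact fun x _ => (hd x).differentiableAt.differentiableWithinAt
    · have h2 : ∀ x, HasDerivAt (fun x => -4 * n * K n 1 x / K n 0 x)
          ((-4 * n * (-4 * n * K n 2 x) * K n 0 x -
            -4 * n * K n 1 x * (-4 * n * K n 1 x)) / K n 0 x ^ 2) x := fun x =>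
        ((hasDerivAt_K n x 1).const_mul (-4 * n)).div (hasDerivAt_K n x 0) (K_pos n x).ne'
      have h3 : MonotoneOn (fun x => -4 * n * K n 1 x / K n 0 x) univ := by
        apply monotoneOn_of_deriv_nonneg convex_univ
        · exact fun x _ => (h2 x).continuousAt.continuousWithinAt
        · exact fun x _ => (h2 x).differentiableAt.differentiableWithinAt
        · intro x _
          rw [(h2 x).deriv]
          have h4 := K_cs n x
          have h5 : -4 * n * (-4 * n * K n 2 x) * K n 0 x -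
            -4 * n * K n 1 x * (-4 * n * K n 1 x) =
            16 * n ^ 2 * (K n 2 x * K n 0 x - K n 1 x ^ 2) := by ring
          rw [h5]
          have h6 : 0 ≤ K n 2 x * K n 0 x - K n 1 x ^ 2 := by linarith
          positivity
      intro x _ y _ hxy
      rw [(hd x).deriv, (hd y).deriv]
      exact h3 (mem_univ x) (mem_univ y) hxy
  refine (h1.add_const (log (1 / π))).congr ?_
  intro x _
  simp only [Pi.add_apply]
  rw [hlog]

/-- For all admissible `n, c` the function `log S_{n,c}` is convex on `I_c`. -/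
theorem result : ∀ n c : ℝ, Admissible n c → ConvexOn ℝ (I c) (fun x => log (S n c x)) := by
  intro n c h
  unfold I
  rcases lt_trichotomy c 0 with hc | hc | hc
  · rw [if_neg (not_le.2 hc)]
    exact case_neg hc (h.2 hc)
  · subst hc
    rw [if_pos le_rfl]
    exact case_zero n
  · rw [if_pos hc.le]
    exact case_pos h.1 hc

end Pool.Agent.Results.MP_6ebaa4_an.LogConvexity
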